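import Mathlib

namespace Pool.Agent.Results.MP_bb77e0_gt.NotSigmaCompact

open Set Topology MeasureTheory TopologicalSpace

open scoped ENNReal NNReal

/-- An mm-space: a complete separable metric space with a Borel probability measure. -/
structure MM where
  X : Type
  [met : MetricSpace X]
  [comp : CompleteSpace X]
  [sep : SeparableSpace X]
  [meas : MeasurableSpace X]
  [borel : BorelSpace X]
  μ : Measure X
  [prob : IsProbabilityMeasure μ]

attribute [instance] MM.met MM.comp MM.sep MM.meas MM.borel MM.prob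

/-- mm-isomorphism: an isometry of the supports which maps the one measure to the other. -/
def Iso (A B : MM) : Prop :=
  ∃ f : A.μ.support → B.μ.support, Isometry f ∧
    Measure.map (fun x => (f x : B.X)) (A.μ.comap ((↑) : A.μ.support → A.X)) = B.μ

/-- The set of mm-isomorphism classes. -/
def 𝒳 : Type 1 := Quot Iso

/-- Lebesgue measure on `[0,1)`. -/
noncomputable def leb : Measure (Ico (0 : ℝ) 1) := (volume : Measure ℝ).comap (↑)

/-- Parameters: Borel maps `[0,1) → X` with law `μ`. -/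
def IsParameter (A : MM) (φ : Ico (0 : ℝ) 1 → A.X) : Prop :=
  Measurable φ ∧ Measure.map φ leb = A.μ

/-- The Ky Fan metric. -/
noncomputable def dKF (f g : Ico (0 : ℝ) 1 → ℝ) : ℝ≥0∞ :=
  ⨅ (ε : ℝ≥0) (_ : leb {t | (ε : ℝ) < |f t - g t|} ≤ ε), (ε : ℝ≥0∞)

/-- The Hausdorff distance of sets of functions for the Ky Fan metric. -/
noncomputable def dH (F G : Set (Ico (0 : ℝ) 1 → ℝ)) : ℝ≥0∞ :=
  max (⨆ f ∈ F, ⨅ g ∈ G, dKF f g) (⨆ g ∈ G, ⨅ f ∈ F, dKF f g)

/-- The set `{f ∘ φ : f ∈ Lip₁ X}`. -/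
def lipComp (A : MM) (φ : Ico (0 : ℝ) 1 → A.X) : Set (Ico (0 : ℝ) 1 → ℝ) :=
  {h | ∃ f : A.X → ℝ, LipschitzWith 1 f ∧ h = f ∘ φ}

/-- The observable distance of mm-spaces. -/
noncomputable def dconc (A B : MM) : ℝ≥0∞ :=
  ⨅ (φ : Ico (0 : ℝ) 1 → A.X) (ψ : Ico (0 : ℝ) 1 → B.X) (_ : IsParameter A φ)
    (_ : IsParameter B ψ), dH (lipComp A φ) (lipComp B ψ)

/-- The observable distance of mm-isomorphism classes. -/
noncomputable def dc (p q : 𝒳) : ℝ≥0∞ :=
  ⨅ (A : MM) (B : MM) (_ : Quot.mk Iso A = p) (_ : Quot.mk Iso B = q), dconc A B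

/-- The concentration topology. -/
instance : TopologicalSpace 𝒳 where
  IsOpen U := ∀ p ∈ U, ∃ ε : ℝ≥0∞, 0 < ε ∧ ∀ q, dc p q < ε → q ∈ U
  isOpen_univ := fun _ _ => ⟨1, one_pos, fun _ _ => trivial⟩
  isOpen_inter := by
    rintro U V hU hV p ⟨h1, h2⟩
    obtain ⟨ε, hε, h⟩ := hU p h1
    obtain ⟨δ, hδ, h'⟩ := hV p h2
    exact ⟨min ε δ, lt_min hε hδ, fun q hq => ⟨h q (hq.trans_le (min_le_left _ _)),
      h' q (hq.trans_le (min_le_right _ _))⟩⟩
  isOpen_sUnion := by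
    rintro S hS p ⟨U, hU, hp⟩
    obtain ⟨ε, hε, h⟩ := hS U hU p hp
    exact ⟨ε, hε, fun q hq => ⟨U, hU, h q hq⟩⟩

/-! ### Observable diameters -/

/-- All 1-Lipschitz functions are `r`-close to a constant off a set of measure `η`. -/
def P (η r : ℝ≥0) (A : MM) : Prop :=
  ∀ f : A.X → ℝ, LipschitzWith 1 f → ∃ c : ℝ, A.μ {x | (r : ℝ) < |f x - c|} ≤ η

lemma P_mono {η η' r r' : ℝ≥0} (hη : η ≤ η') (hr : r ≤ r') {A : MM} (h : P η r A) :
    P η' r' A := by
  intro f hf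
  obtain ⟨c, hc⟩ := h f hf
  refine ⟨c, (measure_mono ?_).trans (hc.trans (by exact_mod_cast hη))⟩
  intro x hx
  have : (r : ℝ) ≤ r' := hr
  exact lt_of_le_of_lt this hx

lemma measure_eq {A B : MM} (f : A.μ.support → B.μ.support) (hf : Isometry f)
    (hfμ : Measure.map (fun x => (f x : B.X)) (A.μ.comap ((↑) : A.μ.support → A.X)) = B.μ)
    {g : B.X → ℝ} (hg : LipschitzWith 1 g) {h : A.X → ℝ} (hgh : ∀ x : A.μ.support, h x = g (f x))
    (r c : ℝ) : A.μ {x | r < |h x - c|} = B.μ {y | r < |g y - c|} := by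
  have hsm : MeasurableSet A.μ.support := A.μ.isClosed_support.measurableSet
  have hopen : IsOpen {y | r < |g y - c|} :=
    isOpen_lt continuous_const ((hg.continuous.sub continuous_const).abs)
  have hfm : Measurable (fun x => (f x : B.X)) :=
    (continuous_subtype_val.comp hf.continuous).measurable
  have h1 : B.μ {y | r < |g y - c|} =
      A.μ (((↑) : A.μ.support → A.X) '' {x | r < |g (f x) - c|}) := by
    conv_lhs => rw [← hfμ]
    rw [Measure.map_apply hfm hopen.measurableSet, comap_subtype_coe_apply hsm]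
    rfl
  have h2 : ((↑) : A.μ.support → A.X) '' {x | r < |g (f x) - c|} =
      {x | r < |h x - c|} ∩ A.μ.support := by
    ext x
    constructor
    · rintro ⟨y, hy, rfl⟩
      refine ⟨?_, y.2⟩
      change r < |h y - c|
      rw [hgh]
      exact hy
    · rintro ⟨hx, hxs⟩
      refine ⟨⟨x, hxs⟩, ?_, rfl⟩
      change r < |g (f ⟨x, hxs⟩) - c|
      rw [← hgh]
      exact hx
  rw [h1, h2]
  exact (measure_inter_conull (mem_ae_iff.1 A.μ.support_mem_ae)).symm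

lemma P_iso {η r : ℝ≥0} {A B : MM} (h : Iso A B) : P η r A ↔ P η r B := by
  classical
  obtain ⟨f, hf, hfμ⟩ := h
  constructor
  · intro hA g hg
    -- extend `g ∘ f`
    let F : A.X → ℝ := fun x => if hx : x ∈ A.μ.support then g (f ⟨x, hx⟩) else 0
    have hF : LipschitzOnWith 1 F A.μ.support := by
      apply LipschitzOnWith.of_dist_le_mul
      intro x hx y hy
      have h1 := hg.dist_le_mul (f ⟨x, hx⟩) (f ⟨y, hy⟩)
      have h2 : dist (f ⟨x, hx⟩ : B.X) (f ⟨y, hy⟩) = dist x y := hf.dist_eq ⟨x, hx⟩ ⟨y, hy⟩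
      rw [h2] at h1
      simpa only [F, dif_pos hx, dif_pos hy] using h1
    obtain ⟨k, hk, hFk⟩ := hF.extend_real
    have hgk : ∀ x : A.μ.support, k x = g (f x) := by
      intro x
      rw [← hFk x.2]
      simp only [F, dif_pos x.2]
    obtain ⟨c, hc⟩ := hA k hk
    exact ⟨c, by rw [← measure_eq f hf hfμ hg hgk]; exact hc⟩
  · intro hB k hk
    -- extend `k ∘ f⁻¹`
    let F : B.X → ℝ := fun y => if hy : ∃ x : A.μ.support, (f x : B.X) = y then k hy.choose else 0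
    have hFf : ∀ x : A.μ.support, F (f x) = k x := by
      intro x
      have hy : ∃ x' : A.μ.support, (f x' : B.X) = f x := ⟨x, rfl⟩
      have h1 : hy.choose = x := hf.injective (Subtype.ext hy.choose_spec)
      simp only [F, dif_pos hy, h1]
    have hF : LipschitzOnWith 1 F (range fun x => (f x : B.X)) := by
      apply LipschitzOnWith.of_dist_le_mul
      rintro _ ⟨x, rfl⟩ _ ⟨y, rfl⟩
      simp only [hFf]
      have h1 := hk.dist_le_mul (x : A.X) y
      have h2 : dist (f x : B.X) (f y) = dist (x : A.X) y := hf.dist_eq x y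
      rw [h2]
      exact h1
    obtain ⟨g, hg, hFg⟩ := hF.extend_real
    have hgk : ∀ x : A.μ.support, k x = g (f x) := by
      intro x
      rw [← hFg ⟨x, rfl⟩, hFf]
    obtain ⟨c, hc⟩ := hB g hg
    exact ⟨c, by rw [measure_eq f hf hfμ hg hgk]; exact hc⟩

/-- The same for classes. -/
def PQ (η r : ℝ≥0) : 𝒳 → Prop := Quot.lift (P η r) fun _ _ h => propext (P_iso h)

lemma PQ_mk (η r : ℝ≥0) (A : MM) : PQ η r (Quot.mk Iso A) ↔ P η r A := Iff.rfl

lemma PQ_mono {η η' r r' : ℝ≥0} (hη : η ≤ η') (hr : r ≤ r') {p : 𝒳} (h : PQ η r p) :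
    PQ η' r' p := by
  induction p using Quot.ind with
  | mk A => exact P_mono hη hr h

lemma P_of_dconc {η r ε : ℝ≥0} {A B : MM} (h : dconc A B < ε) (hA : P η r A) :
    P (η + ε) (r + ε) B := by
  intro g hg
  unfold dconc at h
  simp only [iInf_lt_iff] at h
  obtain ⟨φ, ψ, hφ, hψ, h⟩ := h
  have h1 : (⨆ g ∈ lipComp B ψ, ⨅ f ∈ lipComp A φ, dKF f g) < ε :=
    lt_of_le_of_lt (le_max_right _ _) h
  have h2 : ⨅ f ∈ lipComp A φ, dKF f (g ∘ ψ) < ε := by
    refine lt_of_le_of_lt ?_ h1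
    exact le_iSup₂ (f := fun g (_ : g ∈ lipComp B ψ) => ⨅ f ∈ lipComp A φ, dKF f g) (g ∘ ψ)
      ⟨g, hg, rfl⟩
  simp only [iInf_lt_iff] at h2
  obtain ⟨_, ⟨f, hf, rfl⟩, h2⟩ := h2
  unfold dKF at h2
  simp only [iInf_lt_iff] at h2
  obtain ⟨δ, hδ, hδε⟩ := h2
  have hδε' : δ ≤ ε := by exact_mod_cast hδε.le
  obtain ⟨c, hc⟩ := hA f hf
  refine ⟨c, ?_⟩
  have hopenB : IsOpen {y | ((r + ε : ℝ≥0) : ℝ) < |g y - c|} :=
    isOpen_lt continuous_const ((hg.continuous.sub continuous_const).abs)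
  have hopenA : IsOpen {y | (r : ℝ) < |f y - c|} :=
    isOpen_lt continuous_const ((hf.continuous.sub continuous_const).abs)
  have h3 : B.μ {y | ((r + ε : ℝ≥0) : ℝ) < |g y - c|} =
      leb {t | ((r + ε : ℝ≥0) : ℝ) < |g (ψ t) - c|} := by
    conv_lhs => rw [← hψ.2]
    rw [Measure.map_apply hψ.1 hopenB.measurableSet]
    rfl
  have h4 : A.μ {y | (r : ℝ) < |f y - c|} = leb {t | (r : ℝ) < |f (φ t) - c|} := by
    conv_lhs => rw [← hφ.2]
    rw [Measure.map_apply hφ.1 hopenA.measurableSet]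
    rfl
  rw [h3]
  have h5 : {t | ((r + ε : ℝ≥0) : ℝ) < |g (ψ t) - c|} ⊆
      {t | (r : ℝ) < |f (φ t) - c|} ∪ {t | (δ : ℝ) < |(f ∘ φ) t - (g ∘ ψ) t|} := by
    intro t ht
    by_contra hno
    simp only [mem_union, mem_ofPred_eq, not_or, not_lt, Function.comp] at hno
    have h6 : |g (ψ t) - c| ≤ |f (φ t) - c| + |f (φ t) - g (ψ t)| := by
      have h7 : g (ψ t) - c = (f (φ t) - c) - (f (φ t) - g (ψ t)) := by ring
      rw [h7]
      exact abs_sub _ _
    have h8 : ((r + ε : ℝ≥0) : ℝ) = r + ε := by push_cast; ring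
    have h9 : (δ : ℝ) ≤ ε := hδε'
    have h10 : ((r + ε : ℝ≥0) : ℝ) < |g (ψ t) - c| := ht
    linarith [hno.1, hno.2]
  calc leb {t | ((r + ε : ℝ≥0) : ℝ) < |g (ψ t) - c|}
      ≤ leb {t | (r : ℝ) < |f (φ t) - c|} +
        leb {t | (δ : ℝ) < |(f ∘ φ) t - (g ∘ ψ) t|} :=
        (measure_mono h5).trans (measure_union_le _ _)
    _ ≤ (η : ℝ≥0∞) + (δ : ℝ≥0∞) := by
        refine add_le_add ?_ hδ
        rw [← h4]
        exact hc
    _ ≤ ((η + ε : ℝ≥0) : ℝ≥0∞) := by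
        rw [ENNReal.coe_add]
        exact add_le_add le_rfl (by exact_mod_cast hδε')

lemma PQ_of_dc {η r ε : ℝ≥0} {p q : 𝒳} (h : dc p q < ε) (hp : PQ η r p) :
    PQ (η + ε) (r + ε) q := by
  unfold dc at h
  simp only [iInf_lt_iff] at h
  obtain ⟨A, B, rfl, rfl, h⟩ := h
  exact P_of_dconc h hp

/-- Open sets of classes with small observable diameter. -/
def UU (η r : ℝ≥0) : Set 𝒳 := {p | ∃ δ η' r' : ℝ≥0, 0 < δ ∧ η' + δ ≤ η ∧ r' + δ ≤ r ∧ PQ η' r' p}

lemma isOpen_UU (η r : ℝ≥0) : IsOpen (UU η r) := by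
  rintro p ⟨δ, η', r', hδ, h1, h2, hp⟩
  refine ⟨((δ / 2 : ℝ≥0) : ℝ≥0∞), by exact_mod_cast half_pos hδ, fun q hq => ?_⟩
  refine ⟨δ / 2, η' + δ / 2, r' + δ / 2, half_pos hδ, ?_, ?_, PQ_of_dc hq hp⟩
  · rw [add_assoc, add_halves]
    exact h1
  · rw [add_assoc, add_halves]
    exact h2

lemma UU_mono {η r r' : ℝ≥0} (h : r ≤ r') : UU η r ⊆ UU η r' := by
  rintro p ⟨δ, η1, r1, hδ, h1, h2, hp⟩
  exact ⟨δ, η1, r1, hδ, h1, h2.trans h, hp⟩

lemma UU_P {η r : ℝ≥0} {A : MM} (h : Quot.mk Iso A ∈ UU η r) : P η r A := by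
  obtain ⟨δ, η', r', hδ, h1, h2, hp⟩ := h
  exact P_mono (le_trans le_self_add h1) (le_trans le_self_add h2) hp

/-- Every class has finite observable diameters. -/
lemma exists_UU {η : ℝ≥0} (hη : 0 < η) (p : 𝒳) : ∃ n : ℕ, p ∈ UU η n := by
  induction p using Quot.ind with
  | mk A =>
    have hne : Nonempty A.X := A.μ.nonempty_of_neZero
    obtain ⟨x0⟩ := hne
    have hlim : Filter.Tendsto (fun n : ℕ => A.μ (Metric.closedBall x0 n)ᶜ) Filter.atTop (𝓝 0) := by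
      have h1 : ⋂ n : ℕ, (Metric.closedBall x0 (n : ℝ))ᶜ = ∅ := by
        rw [← compl_iUnion, Metric.iUnion_closedBall_nat, compl_univ]
      have h2 := tendsto_measure_iInter_atTop (μ := A.μ)
        (s := fun n : ℕ => (Metric.closedBall x0 (n : ℝ))ᶜ)
        (fun n => Metric.isClosed_closedBall.measurableSet.compl.nullMeasurableSet) (by
          intro m n hmn
          exact compl_subset_compl.2 (Metric.closedBall_subset_closedBall (by exact_mod_cast hmn)))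
        ⟨0, measure_ne_top _ _⟩
      rw [h1, measure_empty] at h2
      exact h2
    have hpos : (0 : ℝ≥0∞) < ((η / 2 : ℝ≥0) : ℝ≥0∞) := by exact_mod_cast half_pos hη
    obtain ⟨n, hn⟩ := (hlim.eventually (gt_mem_nhds hpos)).exists
    refine ⟨n + ⌈η⌉₊, η / 2, η / 2, n, half_pos hη, (add_halves η).le, ?_, ?_⟩
    · push_cast
      have h1 : η / 2 ≤ η := half_le_self zero_le
      have h2 : η ≤ (⌈η⌉₊ : ℝ≥0) := Nat.le_ceil η
      exact add_le_add le_rfl (h1.trans h2)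
    · intro f hf
      refine ⟨f x0, (measure_mono ?_).trans hn.le⟩
      intro x hx hxb
      have h1 := hf.dist_le_mul x x0
      rw [Metric.mem_closedBall] at hxb
      have h2 : ((n : ℝ≥0) : ℝ) < |f x - f x0| := hx
      rw [Real.dist_eq] at h1
      simp only [NNReal.coe_one, one_mul] at h1
      rw [NNReal.coe_natCast] at h2
      linarith

/-- Compact sets have bounded observable diameters. -/
lemma compact_bound {K : Set 𝒳} (hK : IsCompact K) {η : ℝ≥0} (hη : 0 < η) :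
    ∃ n : ℕ, K ⊆ UU η n := by
  obtain ⟨t, ht⟩ := hK.elim_finite_subcover (fun n : ℕ => UU η n) (fun n => isOpen_UU η n)
    (fun p _ => mem_iUnion.2 (exists_UU hη p))
  refine ⟨t.sup id, fun p hp => ?_⟩
  obtain ⟨n, hn, hpn⟩ := mem_iUnion₂.1 (ht hp)
  exact UU_mono (by exact_mod_cast Finset.le_sup (f := id) hn) hpn

/-! ### The diagonal measure -/

/-- The measure with mass `2 ^ (-n-1)` at `x n`. -/
noncomputable def mm (x : ℕ → ℝ) : Measure ℝ :=
  Measure.sum fun n => ((2 : ℝ≥0∞)⁻¹ ^ (n + 1)) • Measure.dirac (x n)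

instance (x : ℕ → ℝ) : IsProbabilityMeasure (mm x) := by
  constructor
  unfold mm
  rw [Measure.sum_apply _ MeasurableSet.univ]
  simp only [Measure.smul_apply, Measure.dirac_apply_of_mem (mem_univ _), smul_eq_mul, mul_one]
  have h1 : ∀ n : ℕ, (2 : ℝ≥0∞)⁻¹ ^ (n + 1) = 2⁻¹ * 2⁻¹ ^ n := fun n => by
    rw [pow_succ, mul_comm]
  simp only [h1]
  rw [ENNReal.tsum_mul_left, ENNReal.tsum_geometric, ENNReal.one_sub_inv_two, inv_inv]
  exact ENNReal.inv_mul_cancel (by norm_num) (by norm_num)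

lemma mm_ge (x : ℕ → ℝ) (n : ℕ) {s : Set ℝ} (hs : x n ∈ s) : (2 : ℝ≥0∞)⁻¹ ^ (n + 1) ≤ mm x s := by
  have h1 : ((2 : ℝ≥0∞)⁻¹ ^ (n + 1)) • Measure.dirac (x n) ≤ mm x :=
    Measure.le_sum (fun n => ((2 : ℝ≥0∞)⁻¹ ^ (n + 1)) • Measure.dirac (x n)) n
  have h2 := h1 s
  rw [Measure.smul_apply, Measure.dirac_apply_of_mem hs, smul_eq_mul, mul_one] at h2
  exact h2

/-- The space of mm-isomorphism classes with the concentration topology is not a countable union
of compact sets. -/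
theorem result : ¬ ∃ K : ℕ → Set 𝒳, (∀ n, IsCompact (K n)) ∧ ⋃ n, K n = univ := by
  rintro ⟨K, hK, hKu⟩
  have hη : ∀ n : ℕ, (0 : ℝ≥0) < (2⁻¹ : ℝ≥0) ^ (n + 3) := fun n => by positivity
  choose R hR using fun n => compact_bound (hK n) (hη n)
  let x : ℕ → ℝ := fun n => match n with
    | 0 => 0
    | n + 1 => 2 * R n + 1
  let A : MM := { X := ℝ, μ := mm x }
  obtain ⟨n, hn⟩ : ∃ n, (Quot.mk Iso A : 𝒳) ∈ K n := by
    have : (Quot.mk Iso A : 𝒳) ∈ ⋃ n, K n := by rw [hKu]; trivial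
    exact mem_iUnion.1 this
  have hP : P ((2⁻¹ : ℝ≥0) ^ (n + 3)) (R n) A := UU_P (hR n hn)
  obtain ⟨c, hc⟩ := hP id LipschitzWith.id
  have hc' : mm x {y | ((R n : ℝ≥0) : ℝ) < |y - c|} ≤ (2 : ℝ≥0∞)⁻¹ ^ (n + 3) := by
    refine le_trans hc ?_
    rw [ENNReal.coe_pow, ENNReal.coe_inv two_ne_zero]
    exact le_rfl
  have hlt : ∀ m, m < n + 2 → x m ∉ {y | ((R n : ℝ≥0) : ℝ) < |y - c|} := by
    intro m hm hin
    have h1 := (mm_ge x m hin).trans hc'
    have h2 : (2 : ℝ≥0∞)⁻¹ ^ (n + 3) < (2 : ℝ≥0∞)⁻¹ ^ (m + 1) := by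
      have e : (2 : ℝ≥0∞)⁻¹ = ((2⁻¹ : ℝ≥0) : ℝ≥0∞) := by
        rw [ENNReal.coe_inv two_ne_zero]
        rfl
      rw [e, ← ENNReal.coe_pow, ← ENNReal.coe_pow]
      have h3 : (2⁻¹ : ℝ≥0) ^ (n + 3) < (2⁻¹ : ℝ≥0) ^ (m + 1) :=
        pow_lt_pow_right_of_lt_one₀ (by norm_num) (by
          rw [← NNReal.coe_lt_coe]
          push_cast
          norm_num) (by omega)
      exact_mod_cast h3
    exact absurd h1 (not_le.2 h2)
  have h0 := hlt 0 (by omega)
  have h1 := hlt (n + 1) (by omega)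
  simp only [mem_ofPred_eq, not_lt, NNReal.coe_natCast] at h0 h1
  have e0 : x 0 = 0 := rfl
  have e1 : x (n + 1) = 2 * R n + 1 := rfl
  rw [e0] at h0
  rw [e1] at h1
  rw [abs_le] at h0 h1
  linarith [h0.1, h0.2, h1.1, h1.2]

end Pool.Agent.Results.MP_bb77e0_gt.NotSigmaCompact
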